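import Mathlib

/-!
# The positive part of Dirichlet subsolutions with measure data (MP_7504ef_an): definitions, jobs (PD)

`u⁺ = z - min (z, s)` is a difference of two potentials of finite measures.
-/

set_option autoImplicit false

noncomputable section

open MeasureTheory Filter Topology
open scoped ContDiff

namespace Pool.Agent.K7.H81.PD

/-- `ℝ^N` -/
abbrev E (N : ℕ) := EuclideanSpace ℝ (Fin N)

/-- the partial derivative -/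
def pd {N : ℕ} (i : Fin N) (f : E N → ℝ) (x : E N) : ℝ := fderiv ℝ f x (EuclideanSpace.single i 1)

/-- the Laplacian -/
def lap {N : ℕ} (f : E N → ℝ) (x : E N) : ℝ := ∑ i, pd i (pd i f) x

/-- `C_0^∞(Ω̄)` -/
def Tst {N : ℕ} (Ω : Set (E N)) (ζ : E N → ℝ) : Prop := ContDiff ℝ ∞ ζ ∧ ∀ x ∈ frontier Ω, ζ x = 0

/-- `C_c^∞(Ω)` -/
def Cci {N : ℕ} (Ω : Set (E N)) (φ : E N → ℝ) : Prop :=
  ContDiff ℝ ∞ φ ∧ HasCompactSupport φ ∧ tsupport φ ⊆ Ω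

/-- `-Δ u ≤ μ₁ - μ₂` in `(C_0^∞(Ω̄))'` -/
def Sub {N : ℕ} (Ω : Set (E N)) (u : E N → ℝ) (μ₁ μ₂ : Measure (E N)) : Prop :=
  ∀ ζ, Tst Ω ζ → (∀ x ∈ Ω, 0 ≤ ζ x) →
    -∫ x in Ω, u x * lap ζ x ≤ (∫ x in Ω, ζ x ∂μ₁) - ∫ x in Ω, ζ x ∂μ₂

/-- `W_0^{1,1}(Ω)`, the closure of `C_c^∞(Ω)` -/
def W011 {N : ℕ} (Ω : Set (E N)) (v : E N → ℝ) : Prop :=
  IntegrableOn v Ω ∧ ∃ (g : Fin N → E N → ℝ) (φ : ℕ → E N → ℝ), (∀ k, Cci Ω (φ k)) ∧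
    (∀ i, IntegrableOn (g i) Ω) ∧ Tendsto (fun k => ∫ x in Ω, |φ k x - v x|) atTop (𝓝 0) ∧
    ∀ i, Tendsto (fun k => ∫ x in Ω, |pd i (φ k) x - g i x|) atTop (𝓝 0)

/-- the Dirichlet problem with data in `C_c^∞(Ω)` is solvable in `C_0^∞(Ω̄)` -/
def Solv {N : ℕ} (Ω : Set (E N)) : Prop := ∀ φ, Cci Ω φ → ∃ ζ, Tst Ω ζ ∧ ∀ x ∈ Ω, lap ζ x = -φ x

/-- Stampacchia's theorem: the Dirichlet problem with finite measures -/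
def Stamp {N : ℕ} (Ω : Set (E N)) : Prop := ∀ m : Measure (E N), IsFiniteMeasure m →
  ∃ v, W011 Ω v ∧ ∀ ζ, Tst Ω ζ → -∫ x in Ω, v x * lap ζ x = ∫ x in Ω, ζ x ∂m

/-- the final theorem -/
def StFinal : Prop := ∀ (N : ℕ) (Ω : Set (E N)), 1 ≤ N → IsOpen Ω → Bornology.IsBounded Ω → Solv Ω →
  ∀ (μ₁ μ₂ : Measure (E N)) (u : E N → ℝ), IsFiniteMeasure μ₁ → IsFiniteMeasure μ₂ →
  IntegrableOn u Ω → Sub Ω u μ₁ μ₂ →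
  (∃ ν : Measure (E N), ν Set.univ ≤ μ₁ Ω ∧ ∀ φ, Cci Ω φ →
    ∫ x in Ω, max (u x) 0 * lap φ x = (∫ x in Ω, φ x ∂ν) - ∫ x in Ω, φ x ∂μ₁) ∧
  (Stamp Ω → W011 Ω (fun x => max (u x) 0))

/-! ### jobs -/

/-- JOB MAX: the maximum principle (`ζ + ε |x - a|²` or second derivative test along the axes) -/
def StMax : Prop := ∀ (N : ℕ) (Ω : Set (E N)) (ζ : E N → ℝ), 1 ≤ N → IsOpen Ω →
  Bornology.IsBounded Ω → Tst Ω ζ → (∀ x ∈ Ω, lap ζ x ≤ 0) →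
  (∀ x ∈ Ω, 0 ≤ ζ x) ∧ ∀ x ∈ Ω, lap ζ x < 0 → 0 < ζ x

/-- JOB APR: approximation of an indicator function by smooth functions, almost everywhere -/
def StApr : Prop := ∀ (N : ℕ) (Ω A : Set (E N)), IsOpen Ω → Bornology.IsBounded Ω →
  MeasurableSet A → A ⊆ Ω → ∃ θ : ℕ → E N → ℝ, (∀ k, Cci Ω (θ k)) ∧
    (∀ k x, 0 ≤ θ k x ∧ θ k x ≤ 1) ∧
    ∀ᵐ x ∂(volume.restrict Ω), Tendsto (fun k => θ k x) atTop (𝓝 (A.indicator (fun _ => 1) x))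

/-- JOB DUA: Kato's inequality up to the boundary for superharmonic test functions, by duality -/
def StDua : Prop := StMax → StApr → ∀ (N : ℕ) (Ω : Set (E N)) (m : Measure (E N)) (u : E N → ℝ),
  1 ≤ N → IsOpen Ω → Bornology.IsBounded Ω → Solv Ω → IsFiniteMeasure m → IntegrableOn u Ω →
  (∀ ζ, Tst Ω ζ → (∀ x ∈ Ω, 0 ≤ ζ x) → -∫ x in Ω, u x * lap ζ x ≤ ∫ x in Ω, ζ x ∂m) →
  ∀ ζ, Tst Ω ζ → (∀ x ∈ Ω, lap ζ x ≤ 0) →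
    -∫ x in Ω, max (u x) 0 * lap ζ x ≤ ∫ x in Ω, ζ x ∂m

/-- JOB IBP: integration by parts -/
def StIbp : Prop := ∀ (N : ℕ) (Ω : Set (E N)) (F φ : E N → ℝ), IsOpen Ω → ContDiff ℝ ∞ F →
  Cci Ω φ → ∫ x in Ω, F x * lap φ x = ∫ x in Ω, lap F x * φ x

/-- JOB LPC: the Laplacian of a composition -/
def StLpc : Prop := ∀ (N : ℕ) (p : ℝ → ℝ) (f : E N → ℝ) (x : E N), ContDiff ℝ ∞ p → ContDiff ℝ ∞ f →
  lap (fun y => p (f y)) x = deriv p (f x) * lap f x + deriv (deriv p) (f x) * ∑ i, pd i f x ^ 2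

/-- JOB MO1: convergence of mollifications in `L¹` -/
def StMo1 : Prop := ∀ (N : ℕ) (u : E N → ℝ) (b : ℕ → ContDiffBump (0 : E N)), Integrable u →
  Tendsto (fun k => (b k).rOut) atTop (𝓝 0) →
  Tendsto (fun k => ∫ x, |(∫ y, (b k).normed volume (x - y) * u y) - u x|) atTop (𝓝 0)

/-- JOB MO2: the Laplacian of a mollification -/
def StMo2 : Prop := ∀ (N : ℕ) (u : E N → ℝ) (b : ContDiffBump (0 : E N)), Integrable u →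
  ContDiff ℝ ∞ (fun x => ∫ y, b.normed volume (x - y) * u y) ∧
  ∀ x, lap (fun x => ∫ y, b.normed volume (x - y) * u y) x =
    ∫ y, lap (fun z => b.normed volume (x - z)) y * u y

/-- JOB MOL: smooth approximations of `u` and `m` near a compact set -/
def StMol : Prop := StMo1 → StMo2 → ∀ (N : ℕ) (Ω K : Set (E N)) (m : Measure (E N)) (u : E N → ℝ),
  IsOpen Ω → IsCompact K → K ⊆ Ω → IsFiniteMeasure m → IntegrableOn u Ω →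
  (∀ φ, Cci Ω φ → (∀ x, 0 ≤ φ x) → -∫ x in Ω, u x * lap φ x ≤ ∫ x in Ω, φ x ∂m) →
  ∃ f g : ℕ → E N → ℝ, (∀ k, ContDiff ℝ ∞ (f k)) ∧ (∀ k, Continuous (g k)) ∧
    (∀ k x, 0 ≤ g k x) ∧ (∀ k, ∀ x ∈ K, -lap (f k) x ≤ g k x) ∧
    (∀ k, IntegrableOn (f k) Ω) ∧ Tendsto (fun k => ∫ x in Ω, |f k x - u x|) atTop (𝓝 0) ∧
    ∀ φ, Cci Ω φ → Tendsto (fun k => ∫ x in Ω, φ x * g k x) atTop (𝓝 (∫ x in Ω, φ x ∂m))

/-- JOB KAT: Kato's inequality in the interior, with `p t = (t + √(t² + δ²)) / 2` -/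
def StKat : Prop := StIbp → StLpc → StMo1 → StMo2 → StMol → ∀ (N : ℕ) (Ω : Set (E N))
  (m : Measure (E N)) (u : E N → ℝ), IsOpen Ω → IsFiniteMeasure m → IntegrableOn u Ω →
  (∀ φ, Cci Ω φ → (∀ x, 0 ≤ φ x) → -∫ x in Ω, u x * lap φ x ≤ ∫ x in Ω, φ x ∂m) →
  ∀ φ, Cci Ω φ → (∀ x, 0 ≤ φ x) → -∫ x in Ω, max (u x) 0 * lap φ x ≤ ∫ x in Ω, φ x ∂m

/-- `ν` represents `m + Δ w` in `Ω` -/
structure Rep {N : ℕ} (Ω : Set (E N)) (w : E N → ℝ) (m ν : Measure (E N)) : Prop where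
  comp : ν Ωᶜ = 0
  loc : ∀ K, IsCompact K → K ⊆ Ω → ν K < ⊤
  eq : ∀ φ, Cci Ω φ → (∫ x in Ω, φ x ∂m) + ∫ x in Ω, w x * lap φ x = ∫ x in Ω, φ x ∂ν

/-- JOB RSZ: a positive distribution is a measure (`riesz_extension`, `RealRMK.rieszMeasure` on the
subtype `Ω`) -/
def StRsz : Prop := ∀ (N : ℕ) (Ω : Set (E N)) (m : Measure (E N)) (w : E N → ℝ), IsOpen Ω →
  IsFiniteMeasure m → IntegrableOn w Ω →
  (∀ φ, Cci Ω φ → (∀ x, 0 ≤ φ x) → 0 ≤ (∫ x in Ω, φ x ∂m) + ∫ x in Ω, w x * lap φ x) →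
  ∃ ν : Measure (E N), Rep Ω w m ν

/-- JOB CUT: a smooth concave function -/
def StCut : Prop := ∃ S : ℝ → ℝ, ContDiff ℝ ∞ S ∧ (∀ t, 0 ≤ deriv S t ∧ deriv S t ≤ 1) ∧
  (∀ t, deriv (deriv S) t ≤ 0) ∧ (∀ t, t ≤ 1 → S t = t) ∧ (∀ t, 2 ≤ t → S t = S 2) ∧ 1 ≤ S 2 ∧
  S 2 ≤ 2

/-- JOB MAS: the mass of `ν` -/
def StMas : Prop := StMax → StLpc → StCut → ∀ (N : ℕ) (Ω : Set (E N)) (m ν : Measure (E N))
  (w : E N → ℝ), 1 ≤ N → IsOpen Ω → Bornology.IsBounded Ω → Solv Ω → IsFiniteMeasure m →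
  IntegrableOn w Ω → (∀ x, 0 ≤ w x) → Rep Ω w m ν →
  (∀ ζ, Tst Ω ζ → (∀ x ∈ Ω, lap ζ x ≤ 0) → -∫ x in Ω, w x * lap ζ x ≤ ∫ x in Ω, ζ x ∂m) →
  ν Set.univ ≤ m Ω

/-- JOB BDY: the equation holds for test functions which do not vanish near the boundary -/
def StBdy : Prop := StMax → StLpc → StCut → ∀ (N : ℕ) (Ω : Set (E N)) (m ν : Measure (E N))
  (w : E N → ℝ), 1 ≤ N → IsOpen Ω → Bornology.IsBounded Ω → IsFiniteMeasure m → IsFiniteMeasure ν →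
  IntegrableOn w Ω → (∀ x, 0 ≤ w x) → Rep Ω w m ν →
  (∀ ζ, Tst Ω ζ → (∀ x ∈ Ω, lap ζ x ≤ 0) → -∫ x in Ω, w x * lap ζ x ≤ ∫ x in Ω, ζ x ∂m) →
  ∀ ζ, Tst Ω ζ → (∀ x ∈ Ω, lap ζ x ≤ 0) →
    (∫ x in Ω, ζ x ∂m) + ∫ x in Ω, w x * lap ζ x = ∫ x in Ω, ζ x ∂ν

/-- JOB UNI: uniqueness -/
def StUni : Prop := ∀ (N : ℕ) (Ω : Set (E N)) (h : E N → ℝ), 1 ≤ N → IsOpen Ω →
  Bornology.IsBounded Ω → Solv Ω → IntegrableOn h Ω →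
  (∀ ζ, Tst Ω ζ → (∀ x ∈ Ω, lap ζ x ≤ 0) → ∫ x in Ω, h x * lap ζ x = 0) →
  ∀ᵐ x ∂(volume.restrict Ω), h x = 0

/-- JOB WSP: `W_0^{1,1}(Ω)` is a vector space of classes of functions -/
def StWsp : Prop := ∀ (N : ℕ) (Ω : Set (E N)) (v v' w : E N → ℝ), IsOpen Ω → W011 Ω v → W011 Ω v' →
  (∀ᵐ x ∂(volume.restrict Ω), w x = v x - v' x) → W011 Ω w

/-- JOB FIN (helper81) -/
def StFin : Prop := StMax → StApr → StDua → StIbp → StLpc → StMo1 → StMo2 → StMol → StKat → StRsz →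
  StCut → StMas → StBdy → StUni → StWsp → StFinal

end Pool.Agent.K7.H81.PD
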