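import Pool.Agent.K7.H81.PD.Stm

set_option autoImplicit false

noncomputable section

open MeasureTheory Filter Topology
open scoped ContDiff

namespace Pool.Agent.K7.H81.PD

theorem contDiff_pd {N : ℕ} (i : Fin N) {f : E N → ℝ} (hf : ContDiff ℝ ∞ f) :
    ContDiff ℝ ∞ (pd i f) := by
  unfold pd
  exact (hf.fderiv_right (m := ∞) (by simp)).clm_apply contDiff_const

theorem contDiff_lap {N : ℕ} {f : E N → ℝ} (hf : ContDiff ℝ ∞ f) : ContDiff ℝ ∞ (lap f) := by
  unfold lap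
  exact ContDiff.sum fun i _ => contDiff_pd i (contDiff_pd i hf)

/-- products of integrable and smooth functions on a bounded set -/
theorem int_mul {N : ℕ} {Ω : Set (E N)} (hO : IsOpen Ω) (hb : Bornology.IsBounded Ω)
    {h g : E N → ℝ} (hh : IntegrableOn h Ω) (hg : Continuous g) :
    IntegrableOn (fun x => h x * g x) Ω := by
  have hK : IsCompact (closure Ω) := hb.isCompact_closure
  obtain ⟨C, hC⟩ := hK.exists_bound_of_continuousOn hg.continuousOn
  have hae : ∀ᵐ x ∂(volume.restrict Ω), ‖g x‖ ≤ C := by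
    filter_upwards [ae_restrict_mem hO.measurableSet] with x hx
    exact hC x (subset_closure hx)
  have := Integrable.bdd_mul (f := g) (g := h) hh hg.aestronglyMeasurable hae
  refine this.congr ?_
  filter_upwards with x
  ring

theorem stFin : StFin := by
  intro mx apr dua ibp lpc mo1 mo2 mol kat rsz cut mas bdy uni wsp N Ω hN hO hb hS μ₁ μ₂ u h1 h2 hu hsub
  have hw : IntegrableOn (fun x => max (u x) 0) Ω := Integrable.pos_part hu
  have hsub1 : ∀ ζ, Tst Ω ζ → (∀ x ∈ Ω, 0 ≤ ζ x) →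
      -∫ x in Ω, u x * lap ζ x ≤ ∫ x in Ω, ζ x ∂μ₁ := fun ζ hζ h0 =>
    (hsub ζ hζ h0).trans (sub_le_self _ (setIntegral_nonneg hO.measurableSet h0))
  have hcci : ∀ φ, Cci Ω φ → Tst Ω φ := by
    intro φ hφ
    refine ⟨hφ.1, fun x hx => ?_⟩
    have hx' : x ∉ Ω := by
      have := hx.2
      rwa [hO.interior_eq] at this
    exact image_eq_zero_of_notMem_tsupport fun h => hx' (hφ.2.2 h)
  have hdua := dua mx apr N Ω μ₁ u hN hO hb hS h1 hu hsub1
  have hkat := kat ibp lpc mo1 mo2 mol N Ω μ₁ u hO h1 hu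
    (fun φ hφ h0 => hsub1 φ (hcci φ hφ) (fun x _ => h0 x))
  obtain ⟨ν, hν⟩ := rsz N Ω μ₁ (fun x => max (u x) 0) hO h1 hw
    (fun φ hφ h0 => by have := hkat φ hφ h0; linarith)
  have hmass := mas mx lpc cut N Ω μ₁ ν (fun x => max (u x) 0) hN hO hb hS h1 hw
    (fun x => le_max_right _ _) hν hdua
  refine ⟨⟨ν, hmass, fun φ hφ => by have := hν.eq φ hφ; linarith⟩, fun hStamp => ?_⟩
  have hνf : IsFiniteMeasure ν := ⟨hmass.trans_lt (measure_lt_top _ _)⟩
  obtain ⟨v1, hv1, e1⟩ := hStamp μ₁ h1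
  obtain ⟨v2, hv2, e2⟩ := hStamp ν hνf
  refine wsp N Ω v1 v2 _ hO hv1 hv2 ?_
  have key := uni N Ω (fun x => max (u x) 0 - (v1 x - v2 x)) hN hO hb hS
    (hw.sub (hv1.1.sub hv2.1)) ?_
  · filter_upwards [key] with x hx
    linarith
  · intro ζ hζ hl
    have hbd := bdy mx lpc cut N Ω μ₁ ν (fun x => max (u x) 0) hN hO hb h1 hνf hw
      (fun x => le_max_right _ _) hν hdua ζ hζ hl
    have i0 := int_mul hO hb hw (contDiff_lap hζ.1).continuous
    have i1 := int_mul hO hb hv1.1 (contDiff_lap hζ.1).continuous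
    have i2 := int_mul hO hb hv2.1 (contDiff_lap hζ.1).continuous
    have e : ∫ x in Ω, (max (u x) 0 - (v1 x - v2 x)) * lap ζ x =
        (∫ x in Ω, max (u x) 0 * lap ζ x) - ((∫ x in Ω, v1 x * lap ζ x) -
          ∫ x in Ω, v2 x * lap ζ x) := by
      have hf : (fun x => (max (u x) 0 - (v1 x - v2 x)) * lap ζ x) =
          fun x => max (u x) 0 * lap ζ x - (v1 x * lap ζ x - v2 x * lap ζ x) := by
        funext x
        ring
      rw [hf]
      have s2 : ∫ x in Ω, (max (u x) 0 * lap ζ x - (v1 x * lap ζ x - v2 x * lap ζ x)) =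
          (∫ x in Ω, max (u x) 0 * lap ζ x) - ∫ x in Ω, (v1 x * lap ζ x - v2 x * lap ζ x) :=
        integral_sub i0 (i1.sub i2)
      rw [s2, integral_sub i1 i2]
    rw [e]
    have a1 := e1 ζ hζ
    have a2 := e2 ζ hζ
    linarith

end Pool.Agent.K7.H81.PD
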