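import Pool.Agent.K7.H81.PD.Stm

/-! # Project PD: approximate solvability in place of solvability; balls -/

set_option autoImplicit false

noncomputable section

open MeasureTheory Filter Topology
open scoped ContDiff

namespace Pool.Agent.K7.H81.PD

/-- the Dirichlet problem is approximately solvable in `C_0^∞(Ω̄)` -/
def Appr {N : ℕ} (Ω : Set (E N)) : Prop := ∀ φ : E N → ℝ, ContDiff ℝ ∞ φ → ∀ ε : ℝ, 0 < ε →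
  ∃ ζ, Tst Ω ζ ∧ ∀ x ∈ Ω, |lap ζ x + φ x| ≤ ε

/-- the final theorem with `Appr` -/
def StFinal3 : Prop := ∀ (N : ℕ) (Ω : Set (E N)), 1 ≤ N → IsOpen Ω → Bornology.IsBounded Ω → Appr Ω →
  ∀ (μ₁ μ₂ : Measure (E N)) (u : E N → ℝ), IsFiniteMeasure μ₁ → IsFiniteMeasure μ₂ →
  IntegrableOn u Ω → Sub Ω u μ₁ μ₂ →
  (∃ ν : Measure (E N), ν Set.univ ≤ μ₁ Ω ∧ ∀ φ, Cci Ω φ →
    ∫ x in Ω, max (u x) 0 * lap φ x = (∫ x in Ω, φ x ∂ν) - ∫ x in Ω, φ x ∂μ₁) ∧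
  (Stamp Ω → W011 Ω (fun x => max (u x) 0))

/-- JOB DUA3: `DUA` with `Appr`. Let `ζ1` with `|lap ζ1 + 2| ≤ 1` (so `-lap ζ1 ≥ 1`, `ζ1 ≤ C`).
Take `ζ_k` with `|lap ζ_k + (θ_k f + ε)| ≤ ε`, so `θ_k f ≤ -lap ζ_k ≤ θ_k f + 2 ε ≤ f + 2 ε (-lap ζ1)`
and `0 ≤ ζ_k ≤ ζ + 2 ε ζ1`. -/
def StDua3 : Prop := StMax → StApr → ∀ (N : ℕ) (Ω : Set (E N)) (m : Measure (E N)) (u : E N → ℝ),
  1 ≤ N → IsOpen Ω → Bornology.IsBounded Ω → Appr Ω → IsFiniteMeasure m → IntegrableOn u Ω →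
  (∀ ζ, Tst Ω ζ → (∀ x ∈ Ω, 0 ≤ ζ x) → -∫ x in Ω, u x * lap ζ x ≤ ∫ x in Ω, ζ x ∂m) →
  ∀ ζ, Tst Ω ζ → (∀ x ∈ Ω, lap ζ x ≤ 0) →
    -∫ x in Ω, max (u x) 0 * lap ζ x ≤ ∫ x in Ω, ζ x ∂m

/-- JOB MAS3: `MAS` with `Appr` (use one `ζ` with `|lap ζ + 2| ≤ 1`, it is positive in `Ω`) -/
def StMas3 : Prop := StMax → StLpc → StCut → ∀ (N : ℕ) (Ω : Set (E N)) (m ν : Measure (E N))
  (w : E N → ℝ), 1 ≤ N → IsOpen Ω → Bornology.IsBounded Ω → Appr Ω → IsFiniteMeasure m →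
  IntegrableOn w Ω → (∀ x, 0 ≤ w x) → Rep Ω w m ν →
  (∀ ζ, Tst Ω ζ → (∀ x ∈ Ω, lap ζ x ≤ 0) → -∫ x in Ω, w x * lap ζ x ≤ ∫ x in Ω, ζ x ∂m) →
  ν Set.univ ≤ m Ω

/-- JOB UNI3: `UNI` with `Appr` (for `φ ≥ 0` take `ζ` with `|lap ζ + (φ + ε)| ≤ ε`) -/
def StUni3 : Prop := ∀ (N : ℕ) (Ω : Set (E N)) (h : E N → ℝ), 1 ≤ N → IsOpen Ω →
  Bornology.IsBounded Ω → Appr Ω → IntegrableOn h Ω →
  (∀ ζ, Tst Ω ζ → (∀ x ∈ Ω, lap ζ x ≤ 0) → ∫ x in Ω, h x * lap ζ x = 0) →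
  ∀ᵐ x ∂(volume.restrict Ω), h x = 0

/-- polynomial functions -/
def IsPoly {N : ℕ} (f : E N → ℝ) : Prop :=
  ∃ P : MvPolynomial (Fin N) ℝ, ∀ x, f x = MvPolynomial.eval (fun i => x i) P

/-- JOB FIS: on polynomials of degree `≤ d` the linear map `q ↦ lap ((R² - |x|²) q)` is injective by
the maximum principle in the ball (apply it to `±`), hence surjective -/
def StFis : Prop := StMax → ∀ (N : ℕ) (R : ℝ) (p : E N → ℝ), 1 ≤ N → 0 < R → IsPoly p →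
  ∃ q, IsPoly q ∧ ∀ x, lap (fun y => (R ^ 2 - ‖y‖ ^ 2) * q y) x = p x

/-- JOB WEI: the Weierstrass theorem -/
def StWei : Prop := ∀ (N : ℕ) (R ε : ℝ) (φ : E N → ℝ), Continuous φ → 0 < ε →
  ∃ p, IsPoly p ∧ ∀ x, ‖x‖ ≤ R → |p x - φ x| ≤ ε

/-- JOB BAL: balls, `ζ x = (R² - |x - c|²) q (x - c)` -/
def StBal : Prop := StFis → StWei → StMax → ∀ (N : ℕ) (c : E N) (R : ℝ), 1 ≤ N → 0 < R →
  Appr (Metric.ball c R)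

/-- JOB FIN3 (helper81) -/
def StFin3 : Prop := StMax → StApr → StDua3 → StIbp → StLpc → StMo1 → StMo2 → StMol → StKat → StRsz →
  StCut → StMas3 → StBdy → StUni3 → StWsp → StFinal3

end Pool.Agent.K7.H81.PD
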