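import Pool.Agent.K7.H81.PD.Stm

/-! # Project PD: the hypotheses in dimension one -/

set_option autoImplicit false

noncomputable section

namespace Pool.Agent.K7.H81.PD

/-- the interval `(a, b)` in `ℝ^1` -/
def Itv (a b : ℝ) : Set (E 1) := {x | a < x 0 ∧ x 0 < b}

/-- JOB ON1: the Dirichlet problem on an interval, `ζ x = -F (x 0) + F b * (x 0 - a) / (b - a)` with
`F'' = φ`, `F a = 0` -/
def StOn1 : Prop := ∀ a b : ℝ, a < b → Solv (Itv a b)

/-- JOB ON2: measures on an interval: `v x = ∫ G (x 0) (y 0) dm(y)` with the Green function `G`; for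
`W011` take `g_k ∈ C_c^∞` with integral zero and `g_k → v'` in `L¹`, and integrate -/
def StOn2 : Prop := ∀ a b : ℝ, a < b → Stamp (Itv a b)

end Pool.Agent.K7.H81.PD
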